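import Pool.Agent.Helper61.CAR.GoalsQ

/-!
# Project CAR (MP_d97caa_an), packet CAR-TENT: the tent functions
-/

set_option autoImplicit false

namespace Pool.Agent.Helper49.CAR

open Pool.Agent.Helper61.CAR

theorem lam_nonneg (r : ℝ) (i : ℤ) (t : ℝ) : 0 ≤ lam r i t := le_max_left _ _

theorem lam_le_one (r : ℝ) (i : ℤ) (t : ℝ) : lam r i t ≤ 1 := by
  unfold lam
  exact max_le zero_le_one (by linarith [abs_nonneg (t / r - i)])

theorem lam_ne {r : ℝ} {i : ℤ} {t : ℝ} (h : lam r i t ≠ 0) : |t / r - i| < 1 := by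
  by_contra hcon
  push Not at hcon
  apply h
  unfold lam
  exact max_eq_left (by linarith)

theorem lam_zero {r : ℝ} {i : ℤ} {t : ℝ} (h : 1 ≤ |t / r - i|) : lam r i t = 0 := by
  by_contra hcon
  exact absurd (lam_ne hcon) (not_lt.2 h)

theorem lam_floor (r t : ℝ) : lam r ⌊t / r⌋ t = 1 - Int.fract (t / r) := by
  have h1 := Int.fract_nonneg (t / r)
  have h2 := Int.fract_lt_one (t / r)
  unfold lam
  have e : t / r - (⌊t / r⌋ : ℝ) = Int.fract (t / r) := rfl
  rw [e, abs_of_nonneg h1, max_eq_right (by linarith)]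

theorem lam_floor_succ (r t : ℝ) : lam r (⌊t / r⌋ + 1) t = Int.fract (t / r) := by
  have h1 := Int.fract_nonneg (t / r)
  have h2 := Int.fract_lt_one (t / r)
  unfold lam
  have e : t / r - ((⌊t / r⌋ + 1 : ℤ) : ℝ) = - (1 - Int.fract (t / r)) := by
    have e1 : Int.fract (t / r) = t / r - ⌊t / r⌋ := rfl
    push_cast
    rw [e1]
    ring
  rw [e, abs_neg, abs_of_nonneg (by linarith), max_eq_right (by linarith)]
  ring

theorem lam_mem {r : ℝ} {i : ℤ} {t : ℝ} (h : lam r i t ≠ 0) :
    i = ⌊t / r⌋ ∨ i = ⌊t / r⌋ + 1 := by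
  have h1 := lam_ne h
  rw [abs_lt] at h1
  have h2 := Int.floor_le (t / r)
  have h3 := Int.lt_floor_add_one (t / r)
  have h4 : (⌊t / r⌋ : ℝ) < i + 1 := by linarith
  have h5 : (i : ℝ) < ⌊t / r⌋ + 2 := by linarith
  have h6 : ⌊t / r⌋ < i + 1 := by exact_mod_cast h4
  have h7 : i < ⌊t / r⌋ + 2 := by exact_mod_cast h5
  omega

theorem sum_pair (r t : ℝ) :
    ∑ i ∈ ({⌊t / r⌋, ⌊t / r⌋ + 1} : Finset ℤ), lam r i t = 1 := by
  rw [Finset.sum_pair (by omega), lam_floor, lam_floor_succ]
  ring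

theorem sum_union (r t : ℝ) (I : Finset ℤ) :
    ∑ i ∈ I ∪ {⌊t / r⌋, ⌊t / r⌋ + 1}, lam r i t = 1 := by
  rw [← sum_pair r t]
  symm
  apply Finset.sum_subset Finset.subset_union_right
  intro i _ hi
  by_contra hne
  apply hi
  rcases lam_mem hne with h | h
  · simp [h]
  · simp [h]

theorem sqrt_sub (a b : ℝ) (ha : 0 ≤ a) (hb : 0 ≤ b) :
    |Real.sqrt a - Real.sqrt b| ≤ Real.sqrt |a - b| := by
  apply Real.abs_le_sqrt
  have h1 := Real.sqrt_nonneg a
  have h2 := Real.sqrt_nonneg b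
  have h3 := Real.sq_sqrt ha
  have h4 := Real.sq_sqrt hb
  have e : a - b = (Real.sqrt a - Real.sqrt b) * (Real.sqrt a + Real.sqrt b) := by
    nlinarith
  rw [e, abs_mul, abs_of_nonneg (add_nonneg h1 h2), ← sq_abs, sq]
  apply mul_le_mul_of_nonneg_left _ (abs_nonneg _)
  rw [abs_le]
  constructor <;> linarith

theorem tent : S_TENT := by
  intro r hr
  refine ⟨lam_nonneg r, lam_le_one r, ?_, ?_, ?_, ?_, ?_, ?_⟩
  · intro i j t hij
    by_contra hne
    have h1 := lam_ne (left_ne_zero_of_mul hne)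
    have h2 := lam_ne (right_ne_zero_of_mul hne)
    rw [abs_lt] at h1 h2
    have h3 : (i : ℝ) + 2 ≤ j := by exact_mod_cast hij
    linarith
  · intro n0 t
    rw [← sum_union r t (Finset.Icc (-(n0 : ℤ)) n0)]
    exact Finset.sum_le_sum_of_subset_of_nonneg Finset.subset_union_left
      fun i _ _ => lam_nonneg r i t
  · intro n0 t ht
    rw [← sum_union r t (Finset.Icc (-(n0 : ℤ)) n0)]
    apply Finset.sum_subset Finset.subset_union_left
    intro i hi hni
    have hx : |t / r| ≤ n0 := by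
      rw [abs_div, abs_of_pos hr, div_le_iff₀ hr]
      exact ht
    rw [abs_le] at hx
    rw [Finset.mem_union] at hi
    rcases hi with hi | hi
    · exact absurd hi hni
    · rw [Finset.mem_insert, Finset.mem_singleton] at hi
      have hf1 : (-(n0 : ℤ)) ≤ ⌊t / r⌋ := Int.le_floor.2 (by push_cast; exact hx.1)
      have hf2 : ⌊t / r⌋ ≤ (n0 : ℤ) := by
        have : (⌊t / r⌋ : ℝ) ≤ n0 := (Int.floor_le _).trans hx.2
        exact_mod_cast this
      rcases hi with hi | hi
      · exact absurd (Finset.mem_Icc.2 ⟨by omega, by omega⟩) hni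
      · have h1 : ⌊t / r⌋ = n0 := by
          by_contra hne
          exact hni (Finset.mem_Icc.2 ⟨by omega, by omega⟩)
        apply lam_zero
        have h2 : (n0 : ℝ) ≤ t / r := by
          have := Int.floor_le (t / r)
          rw [h1] at this
          exact_mod_cast this
        have h3 : t / r = n0 := le_antisymm hx.2 h2
        rw [hi, h1, h3]
        push_cast
        rw [show (n0 : ℝ) - (n0 + 1) = -1 by ring]
        simp
  · intro i t t'
    refine (sqrt_sub _ _ (lam_nonneg _ _ _) (lam_nonneg _ _ _)).trans (Real.sqrt_le_sqrt ?_)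
    unfold lam
    rw [max_comm 0, max_comm 0]
    refine (abs_max_sub_max_le_abs _ _ _).trans ?_
    have e : (1 - |t / r - (i : ℝ)|) - (1 - |t' / r - (i : ℝ)|) =
        |t' / r - (i : ℝ)| - |t / r - (i : ℝ)| := by ring
    rw [e]
    refine (abs_abs_sub_abs_le_abs_sub _ _).trans ?_
    have e2 : t' / r - (i : ℝ) - (t / r - i) = - ((t - t') / r) := by ring
    rw [e2, abs_neg, abs_div, abs_of_pos hr]
  · intro i t h
    have h1 := lam_ne h
    have e : t - i * r = r * (t / r - i) := by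
      field_simp
    rw [e, abs_mul, abs_of_pos hr]
    nlinarith
  · intro i
    unfold lam
    fun_prop

end Pool.Agent.Helper49.CAR
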