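import Pool.Agent.Helper34.CAR.GoalsA

/-!
# Project CAR (MP_d97caa_an), packet CAR-HOMS: the shift homotopy
-/

set_option autoImplicit false

open scoped ComplexOrder ZeroAtInfty

namespace Pool.Agent.Helper49.CAR

open Pool.Agent.Helper34.CAR

section diag

variable {X : Type} [NonUnitalCStarAlgebra X]

theorem dX_apply (x y : X) (i j : Fin 2) :
    dX x y i j = (if i = 0 ∧ j = 0 then (x : Unitization ℂ X) else 0) +
      (if i = 1 ∧ j = 1 then (y : Unitization ℂ X) else 0) := rfl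

/-- `f ↦ diag(φ f, ψ f)` -/
noncomputable def dHom (φ ψ : X →⋆ₙₐ[ℂ] X) : X →⋆ₙₐ[ℂ] Mt (Fin 2) (Unitization ℂ X) where
  toFun f := dX (φ f) (ψ f)
  map_smul' c f := by
    refine Mt.ext fun i j => ?_
    rw [map_smul, map_smul]
    show _ = c • (dX (φ f) (ψ f) i j)
    rw [dX_apply, dX_apply]
    fin_cases i <;> fin_cases j <;> simp
  map_zero' := by
    refine Mt.ext fun i j => ?_
    rw [Mt.zero_apply, dX_apply, map_zero, map_zero]
    fin_cases i <;> fin_cases j <;> simp
  map_add' f g := by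
    refine Mt.ext fun i j => ?_
    rw [Mt.add_apply, dX_apply, dX_apply, dX_apply, map_add, map_add]
    fin_cases i <;> fin_cases j <;> simp
  map_mul' f g := by
    refine Mt.ext fun i j => ?_
    rw [Mt.mul_apply, Fin.sum_univ_two]
    simp only [dX_apply, map_mul]
    fin_cases i <;> fin_cases j <;> simp
  map_star' f := by
    refine Mt.ext fun i j => ?_
    rw [Mt.star_apply, dX_apply, dX_apply, map_star, map_star]
    fin_cases i <;> fin_cases j <;> simp

theorem dHom_apply (φ ψ : X →⋆ₙₐ[ℂ] X) (f : X) : dHom φ ψ f = dX (φ f) (ψ f) := rfl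

theorem norm_dX_le (x y : X) : ‖dX x y‖ ≤ ‖x‖ + ‖y‖ := by
  unfold dX Mt.dg
  refine (norm_add_le _ _).trans (add_le_add ?_ ?_)
  · refine (Mt.norm_single_le _ _ _).trans ?_
    rw [Unitization.norm_inr]
  · refine (Mt.norm_single_le _ _ _).trans ?_
    rw [Unitization.norm_inr]

theorem dX_sub (x y x' y' : X) : dX x y - dX x' y' = dX (x - x') (y - y') := by
  refine Mt.ext fun i j => ?_
  rw [Mt.sub_apply, dX_apply, dX_apply, dX_apply]
  fin_cases i <;> fin_cases j <;> simp

end diag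

section shift

variable (E : Type) [NonUnitalCStarAlgebra E]

theorem tendsto_up (u : ℝ) :
    Filter.Tendsto (fun t : ℝ => |t| + u) (Filter.cocompact ℝ) (Filter.cocompact ℝ) := by
  have h1 : Filter.Tendsto (fun t : ℝ => |t|) (Filter.cocompact ℝ) Filter.atTop :=
    tendsto_norm_cocompact_atTop
  exact (Filter.tendsto_atTop_add_const_right _ u h1).mono_right atTop_le_cocompact

theorem tendsto_dn (u : ℝ) :
    Filter.Tendsto (fun t : ℝ => -|t| - u) (Filter.cocompact ℝ) (Filter.cocompact ℝ) := by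
  have h1 : Filter.Tendsto (fun t : ℝ => |t|) (Filter.cocompact ℝ) Filter.atTop :=
    tendsto_norm_cocompact_atTop
  have h2 := Filter.tendsto_neg_atTop_atBot.comp (Filter.tendsto_atTop_add_const_right _ u h1)
  refine (h2.congr fun t => ?_).mono_right atBot_le_cocompact
  show -(|t| + u) = -|t| - u
  ring

/-- `f ↦ f(|t| + u)` -/
noncomputable def kP (u : ℝ) : C₀(ℝ, E) →⋆ₙₐ[ℂ] C₀(ℝ, E) :=
  cmp E (fun t => |t| + u) (by fun_prop) (tendsto_up u)

/-- `f ↦ f(-|t| - u)` -/
noncomputable def kM (u : ℝ) : C₀(ℝ, E) →⋆ₙₐ[ℂ] C₀(ℝ, E) :=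
  cmp E (fun t => -|t| - u) (by fun_prop) (tendsto_dn u)

theorem kP_apply (u : ℝ) (f : C₀(ℝ, E)) (t : ℝ) : kP E u f t = f (|t| + u) := rfl

theorem kM_apply (u : ℝ) (f : C₀(ℝ, E)) (t : ℝ) : kM E u f t = f (-|t| - u) := rfl

theorem norm_le_c0 {f : C₀(ℝ, E)} {C : ℝ} (hC : 0 ≤ C) (h : ∀ t, ‖f t‖ ≤ C) : ‖f‖ ≤ C := by
  rw [← ZeroAtInftyContinuousMap.norm_toBCF_eq_norm]
  exact (BoundedContinuousFunction.norm_le hC).2 h

theorem exists_far (f : C₀(ℝ, E)) (ε : ℝ) (hε : 0 < ε) :
    ∃ U : ℝ, 0 ≤ U ∧ ∀ t : ℝ, U ≤ |t| → ‖f t‖ ≤ ε := by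
  have h1 : ∀ᶠ t in Filter.cocompact ℝ, ‖f t‖ < ε := by
    have h2 := zero_at_infty f
    have h3 := h2.norm
    rw [norm_zero] at h3
    exact h3.eventually (gt_mem_nhds hε)
  rw [Filter.Eventually, Filter.mem_cocompact] at h1
  obtain ⟨K, hK, hKs⟩ := h1
  obtain ⟨R, hR⟩ := hK.isBounded.exists_norm_le
  refine ⟨|R| + 1, by positivity, fun t ht => ?_⟩
  have h4 : t ∈ Kᶜ := by
    intro htK
    have h5 := hR t htK
    rw [Real.norm_eq_abs] at h5
    have h6 := le_abs_self R
    linarith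
  exact (hKs h4).le

theorem exists_unif (F : Finset C₀(ℝ, E)) (ε : ℝ) (hε : 0 < ε) :
    ∃ δ : ℝ, 0 < δ ∧ ∀ f ∈ F, ∀ x y : ℝ, |x - y| < δ → ‖f x - f y‖ ≤ ε := by
  classical
  induction F using Finset.induction_on with
  | empty => exact ⟨1, one_pos, by simp⟩
  | insert f F hf ih =>
    obtain ⟨δ, hδ, h⟩ := ih
    have huc : UniformContinuous f := ZeroAtInftyContinuousMap.uniformContinuous f
    obtain ⟨δ', hδ', h'⟩ := Metric.uniformContinuous_iff.1 huc ε hε
    refine ⟨min δ δ', lt_min hδ hδ', fun g hg x y hxy => ?_⟩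
    rcases Finset.mem_insert.1 hg with rfl | hg
    · have := h' (show dist x y < δ' by
        rw [Real.dist_eq]
        exact hxy.trans_le (min_le_right _ _))
      rw [dist_eq_norm] at this
      exact this.le
    · exact h g hg x y (hxy.trans_le (min_le_left _ _))

end shift

/-- **HOMS**: the shift homotopy. -/
theorem homs : S_HOMS := by
  intro E _ P M hP hM F η hη
  classical
  have hη4 : 0 < η / 4 := by positivity
  choose Uf hUf0 hUf using fun f : C₀(ℝ, E) => exists_far E f (η / 4) hη4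
  obtain ⟨δ, hδ, hunif⟩ := exists_unif E F (η / 4) hη4
  set U : ℝ := ∑ f ∈ F, Uf f with hU
  have hU0 : 0 ≤ U := Finset.sum_nonneg fun f _ => hUf0 f
  have hUle : ∀ f ∈ F, Uf f ≤ U := fun f hf =>
    Finset.single_le_sum (f := Uf) (fun g _ => hUf0 g) hf
  obtain ⟨m, hm⟩ := exists_nat_gt (U / δ)
  have hm0 : (0 : ℝ) < m := lt_of_le_of_lt (by positivity) hm
  set s : ℝ := U / m with hs
  have hs0 : 0 ≤ s := by positivity
  have hsδ : s < δ := by
    rw [hs, div_lt_iff₀ hm0]
    rw [div_lt_iff₀ hδ] at hm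
    linarith
  have hms : (m : ℝ) * s = U := by
    rw [hs]
    field_simp
  have hfar : ∀ f ∈ F, ∀ t : ℝ, U ≤ |t| → ‖f t‖ ≤ η / 4 := fun f hf t ht =>
    hUf f t ((hUle f hf).trans ht)
  refine ⟨m + 1, fun i => if i ≤ m then dHom (kP E (i * s)) (kM E (i * s)) else 0, ?_, ?_, ?_⟩
  · intro f
    show (if 0 ≤ m then dHom (kP E ((0 : ℕ) * s)) (kM E ((0 : ℕ) * s)) else 0) f = _
    rw [if_pos (Nat.zero_le m), dHom_apply]
    congr 1
    · ext t
      rw [kP_apply, hP]
      simp
    · ext t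
      rw [kM_apply, hM]
      simp
  · intro f
    show (if m + 1 ≤ m then dHom (kP E ((m + 1 : ℕ) * s)) (kM E ((m + 1 : ℕ) * s)) else 0) f = _
    rw [if_neg (by omega)]
    rfl
  · intro f hf i hi
    show ‖(if i ≤ m then dHom (kP E (i * s)) (kM E (i * s)) else 0) f -
      (if i + 1 ≤ m then dHom (kP E ((i + 1 : ℕ) * s)) (kM E ((i + 1 : ℕ) * s)) else 0) f‖ ≤ η
    rw [if_pos (by omega)]
    by_cases him : i + 1 ≤ m
    · rw [if_pos him, dHom_apply, dHom_apply, dX_sub]
      refine (norm_dX_le _ _).trans ?_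
      have h1 : ‖kP E (i * s) f - kP E ((i + 1 : ℕ) * s) f‖ ≤ η / 4 := by
        refine norm_le_c0 E hη4.le fun t => ?_
        show ‖f (|t| + i * s) - f (|t| + (i + 1 : ℕ) * s)‖ ≤ η / 4
        refine hunif f hf _ _ ?_
        have e : |t| + i * s - (|t| + (i + 1 : ℕ) * s) = -s := by
          push_cast
          ring
        rw [e, abs_neg, abs_of_nonneg hs0]
        exact hsδ
      have h2 : ‖kM E (i * s) f - kM E ((i + 1 : ℕ) * s) f‖ ≤ η / 4 := by
        refine norm_le_c0 E hη4.le fun t => ?_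
        show ‖f (-|t| - i * s) - f (-|t| - (i + 1 : ℕ) * s)‖ ≤ η / 4
        refine hunif f hf _ _ ?_
        have e : -|t| - i * s - (-|t| - (i + 1 : ℕ) * s) = s := by
          push_cast
          ring
        rw [e, abs_of_nonneg hs0]
        exact hsδ
      linarith
    · rw [if_neg him]
      have him' : i = m := by omega
      subst him'
      have e : (0 : C₀(ℝ, E) →⋆ₙₐ[ℂ] Mt (Fin 2) (Unitization ℂ C₀(ℝ, E))) f = 0 := rfl
      rw [e, sub_zero, dHom_apply]
      refine (norm_dX_le _ _).trans ?_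
      rw [hms]
      have h1 : ‖kP E U f‖ ≤ η / 4 := by
        refine norm_le_c0 E hη4.le fun t => ?_
        rw [kP_apply]
        refine hfar f hf _ ?_
        rw [abs_of_nonneg (by positivity)]
        linarith [abs_nonneg t]
      have h2 : ‖kM E U f‖ ≤ η / 4 := by
        refine norm_le_c0 E hη4.le fun t => ?_
        rw [kM_apply]
        refine hfar f hf _ ?_
        have e2 : -|t| - U = -(|t| + U) := by ring
        rw [e2, abs_neg, abs_of_nonneg (by positivity)]
        linarith [abs_nonneg t]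
      linarith

end Pool.Agent.Helper49.CAR
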