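import Pool.Agent.Helper34.CAR.GoalsC

/-!
# Project CAR, packet CAR5-INV: inverse square roots in a corner
-/

set_option autoImplicit false

namespace Pool.Agent.Helper49.CAR

open Pool.Agent.Helper34.CAR
open scoped CStarAlgebra

theorem inv : S_INV := by
  intro A _ e d μ hee hse hed hde hsd hn
  rcases subsingleton_or_nontrivial A with hA | hA
  · exact ⟨0, Subsingleton.elim _ _, Subsingleton.elim _ _, Subsingleton.elim _ _,
      fun f _ _ => Subsingleton.elim _ _⟩
  obtain ⟨b, hb⟩ : ∃ b : A, b = d + (μ : ℂ) • (1 - e) := ⟨_, rfl⟩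
  have hbe : b * e = d := by
    rw [hb, add_mul, hde, smul_mul_assoc, sub_mul, one_mul, hee, sub_self, smul_zero, add_zero]
  have heb : e * b = d := by
    rw [hb, mul_add, hed, mul_smul_comm, mul_sub, mul_one, hee, sub_self, smul_zero, add_zero]
  have hbs : IsSelfAdjoint b := by
    rw [IsSelfAdjoint, hb, star_add, hsd, star_smul, star_sub, star_one, hse]
    simp
  have hbm : b - algebraMap ℝ A μ = d - (μ : ℂ) • e := by
    rw [hb, Algebra.algebraMap_eq_smul_one, smul_sub, ← Complex.coe_smul]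
    abel
  have hpos : ∀ t ∈ spectrum ℝ b, 0 < t := by
    intro t ht
    have h1 : t - μ ∈ spectrum ℝ (b - algebraMap ℝ A μ) := by
      rw [spectrum.mem_iff] at ht ⊢
      rw [map_sub, sub_sub_sub_cancel_right]
      exact ht
    have h2 := spectrum.norm_le_norm_of_mem h1
    rw [hbm, Real.norm_eq_abs] at h2
    have h3 := (abs_lt.1 (h2.trans_lt hn)).1
    linarith
  have hcont : ContinuousOn (fun t : ℝ => (√t)⁻¹) (spectrum ℝ b) :=
    (Real.continuous_sqrt.continuousOn).inv₀ fun t ht => (Real.sqrt_pos.2 (hpos t ht)).ne'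
  obtain ⟨w, hw⟩ : ∃ w : A, w = cfc (fun t : ℝ => (√t)⁻¹) b := ⟨_, rfl⟩
  have hws : star w = w := by
    rw [hw]
    exact (cfc_predicate (fun t : ℝ => (√t)⁻¹) b : IsSelfAdjoint _)
  have hwb : w * b * w = 1 := by
    have h1 : w * b = cfc (fun t : ℝ => (√t)⁻¹ * t) b := by
      conv_lhs => rw [hw, ← cfc_id ℝ b hbs]
      rw [cfc_id ℝ b hbs]
      exact (cfc_mul (fun t : ℝ => (√t)⁻¹) id b hcont continuousOn_id).symm ▸ by
        rw [cfc_id ℝ b hbs]
    have h2 : w * b * w = cfc (fun t : ℝ => (√t)⁻¹ * t * (√t)⁻¹) b := by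
      rw [h1, hw]
      exact (cfc_mul (fun t : ℝ => (√t)⁻¹ * t) (fun t : ℝ => (√t)⁻¹) b
        (hcont.mul continuousOn_id) hcont).symm
    rw [h2]
    have h3 : cfc (fun t : ℝ => (√t)⁻¹ * t * (√t)⁻¹) b = cfc (fun _ : ℝ => (1 : ℝ)) b := by
      refine cfc_congr fun t ht => ?_
      have h4 := hpos t ht
      have h5 : √t ≠ 0 := (Real.sqrt_pos.2 h4).ne'
      have h6 : √t * √t = t := Real.mul_self_sqrt h4.le
      field_simp
      nlinarith
    rw [h3]
    exact cfc_const_one ℝ b
  have hce : Commute w e := by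
    rw [hw]
    exact Commute.cfc_real (show b * e = e * b by rw [hbe, heb]) _
  have hew : e * w = w * e := hce.eq.symm
  refine ⟨w * e, ?_, ?_, ?_, ?_⟩
  · rw [mul_assoc, hee]
  · rw [← mul_assoc, hew, mul_assoc, hee]
  · rw [star_mul, hse, hws]
    calc e * w * d * (w * e) = e * w * (b * e) * (w * e) := by rw [hbe]
      _ = e * w * b * (e * w) * e := by simp only [mul_assoc]
      _ = e * w * b * (w * e) * e := by rw [hew]
      _ = e * (w * b * w) * (e * e) := by simp only [mul_assoc]
      _ = e := by rw [hwb, hee, mul_one, hee]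
  · intro f hfd hfe
    have hfb : f b = b := by
      rw [hb, map_add, hfd, map_smul, map_sub, map_one, hfe]
    have hfw : f w = w := by
      rw [hw]
      have h1 := StarAlgHom.map_cfc f (fun t : ℝ => (√t)⁻¹) b hcont (map_continuous f) hbs
        (by rw [hfb]; exact hbs)
      rw [h1, hfb]
    rw [map_mul, hfw, hfe]

end Pool.Agent.Helper49.CAR
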